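import Mathlib

/-! Part B (blocks) of the proof of helper97 for MP_f3a553_pr. -/

set_option linter.unusedSectionVars false
set_option linter.unusedVariables false

set_option autoImplicit false

open MeasureTheory ProbabilityTheory Filter Finset Topology

namespace Pool.Agent.Helper72.QC

section core

variable {R : ℕ → ℝ}

theorem R_mono (hR : ∀ n : ℕ, 1 / (4 * ((n : ℝ) + 1)) ≤ R (n + 1) - R n ∧
    R (n + 1) - R n ≤ 1 / (2 * ((n : ℝ) + 1) + 1)) : Monotone R := by
  refine monotone_nat_of_le_succ (fun n => ?_)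
  have h1 := (hR n).1
  have h2 : (0 : ℝ) ≤ 1 / (4 * ((n : ℝ) + 1)) := by positivity
  linarith

theorem R_sub_le (hR : ∀ n : ℕ, 1 / (4 * ((n : ℝ) + 1)) ≤ R (n + 1) - R n ∧
    R (n + 1) - R n ≤ 1 / (2 * ((n : ℝ) + 1) + 1)) {m n : ℕ} (h : m ≤ n) :
    R n - R m ≤ 1 / 2 * (Real.log (2 * n + 1) - Real.log (2 * m + 1)) := by
  induction n, h using Nat.le_induction with
  | base => simp
  | succ n hn ih =>
    have h1 := (hR n).2
    have h2 : 1 / (2 * ((n : ℝ) + 1) + 1) ≤
        1 / 2 * (Real.log (2 * ((n + 1 : ℕ) : ℝ) + 1) - Real.log (2 * n + 1)) := by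
      have hp : (0 : ℝ) < 2 * n + 1 := by positivity
      have hp' : (0 : ℝ) < 2 * ((n + 1 : ℕ) : ℝ) + 1 := by positivity
      rw [← Real.log_div hp'.ne' hp.ne']
      have h3 := Real.one_sub_inv_le_log_of_pos (div_pos hp' hp)
      have h4 : 1 - ((2 * ((n + 1 : ℕ) : ℝ) + 1) / (2 * n + 1))⁻¹ =
          2 * (1 / (2 * ((n : ℝ) + 1) + 1)) := by
        push_cast
        field_simp
        ring
      rw [h4] at h3
      linarith
    linarith

theorem R_sub_ge (hR : ∀ n : ℕ, 1 / (4 * ((n : ℝ) + 1)) ≤ R (n + 1) - R n ∧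
    R (n + 1) - R n ≤ 1 / (2 * ((n : ℝ) + 1) + 1)) {m n : ℕ} (h : m ≤ n) :
    1 / 4 * (Real.log (n + 1) - Real.log (m + 1)) ≤ R n - R m := by
  induction n, h using Nat.le_induction with
  | base => simp
  | succ n hn ih =>
    have h1 := (hR n).1
    have h2 : 1 / 4 * (Real.log (((n + 1 : ℕ) : ℝ) + 1) - Real.log (n + 1)) ≤
        1 / (4 * ((n : ℝ) + 1)) := by
      have hp : (0 : ℝ) < (n : ℝ) + 1 := by positivity
      have hp' : (0 : ℝ) < ((n + 1 : ℕ) : ℝ) + 1 := by positivity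
      rw [← Real.log_div hp'.ne' hp.ne']
      have h3 := Real.log_le_sub_one_of_pos (div_pos hp' hp)
      have h4 : (((n + 1 : ℕ) : ℝ) + 1) / ((n : ℝ) + 1) - 1 = 1 / ((n : ℝ) + 1) := by
        push_cast
        field_simp
        ring
      rw [h4] at h3
      have h5 : 1 / (4 * ((n : ℝ) + 1)) = 1 / 4 * (1 / ((n : ℝ) + 1)) := by
        field_simp
      rw [h5]
      linarith
    linarith

/-- the potential of a level -/
noncomputable def uu (R : ℕ → ℝ) (s w : ℝ) (M : ℕ) : ℝ := (1 - s * R M) * w ^ 4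

open Classical in
/-- the levels -/
noncomputable def GG (R : ℕ → ℝ) (N : ℕ) (s y w : ℝ) (j : ℕ) : ℕ :=
  Nat.findGreatest (fun M => (y + j) ^ 2 ≤ uu R s w M) N

variable (hR0 : R 0 = 0) (hR : ∀ n : ℕ, 1 / (4 * ((n : ℝ) + 1)) ≤ R (n + 1) - R n ∧
    R (n + 1) - R n ≤ 1 / (2 * ((n : ℝ) + 1) + 1)) (N : ℕ) (s y w : ℝ)
    (hN : Real.log N = w ^ 4) (hN1 : 1 ≤ N) (hw : 1000 ≤ w) (hy : 8 ≤ y)
    (hsl : 1 / 2 ≤ s * w ^ 4) (hsl' : s * w ^ 4 ≤ 4) (hu : (1 - s * R N) * w ^ 4 = y ^ 2)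

include hR hw hsl in
theorem uu_anti : Antitone (uu R s w) := by
  intro a b hab
  have h1 := R_mono hR hab
  unfold uu
  have h2 : 0 < w ^ 4 := by positivity
  have hs : 0 ≤ s := by
    by_contra h
    push Not at h
    nlinarith
  have h3 : s * R a ≤ s * R b := mul_le_mul_of_nonneg_left h1 hs
  nlinarith

include hR0 hR hN1 hw hy hsl hsl' hu in
theorem GG_facts (j : ℕ) (hj : y + j ≤ w ^ 2 - w) :
    1 ≤ GG R N s y w j ∧ GG R N s y w j ≤ N ∧ (y + j) ^ 2 ≤ uu R s w (GG R N s y w j) ∧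
      uu R s w (GG R N s y w j) ≤ (y + j) ^ 2 + 1 := by
  classical
  have hanti := uu_anti hR s w hw hsl
  have hP1 : (y + j) ^ 2 ≤ uu R s w 1 := by
    have h1 : R 1 ≤ 1 / 3 := by
      have := (hR 0).2
      norm_num at this
      rw [hR0] at this
      linarith
    have hR1 : 0 ≤ R 1 := by
      have := R_mono hR (Nat.zero_le 1)
      rw [hR0] at this
      exact this
    have h2 : s * w ^ 4 * R 1 ≤ 4 / 3 := by nlinarith
    have h3 : uu R s w 1 = w ^ 4 - s * w ^ 4 * R 1 := by unfold uu; ring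
    have h4 : (y + j) ^ 2 ≤ (w ^ 2 - w) ^ 2 := by
      have : (0 : ℝ) ≤ y + j := by positivity
      exact pow_le_pow_left₀ this hj 2
    have h5 : (w ^ 2 - w) ^ 2 = w ^ 4 - 2 * w ^ 3 + w ^ 2 := by ring
    have h6 : w ^ 2 ≤ w ^ 3 := by
      apply pow_le_pow_right₀ (by linarith) (by norm_num)
    have h7 : (1 : ℝ) * 1000 ≤ w ^ 3 := by
      have : w ≤ w ^ 3 := by
        calc w = w ^ 1 := (pow_one w).symm
          _ ≤ w ^ 3 := pow_le_pow_right₀ (by linarith) (by norm_num)
      linarith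
    rw [h3]
    linarith
  have hle : GG R N s y w j ≤ N := Nat.findGreatest_le N
  have hge : 1 ≤ GG R N s y w j := Nat.le_findGreatest hN1 hP1
  have hspec : (y + j) ^ 2 ≤ uu R s w (GG R N s y w j) :=
    Nat.findGreatest_spec (P := fun M => (y + j) ^ 2 ≤ uu R s w M) hN1 hP1
  refine ⟨hge, hle, hspec, ?_⟩
  rcases Nat.lt_or_ge (GG R N s y w j) N with hlt | hge'
  · have h1 : ¬ ((y + j) ^ 2 ≤ uu R s w (GG R N s y w j + 1)) :=
      Nat.findGreatest_is_greatest (P := fun M => (y + j) ^ 2 ≤ uu R s w M)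
        (Nat.lt_succ_self _) hlt
    push Not at h1
    have h2 := (hR (GG R N s y w j)).2
    have h3 : uu R s w (GG R N s y w j) - uu R s w (GG R N s y w j + 1) =
        s * w ^ 4 * (R (GG R N s y w j + 1) - R (GG R N s y w j)) := by unfold uu; ring
    have h4 : 1 / (2 * (((GG R N s y w j : ℕ) : ℝ) + 1) + 1) ≤ 1 / 5 := by
      apply one_div_le_one_div_of_le (by norm_num)
      have : (1 : ℝ) ≤ ((GG R N s y w j : ℕ) : ℝ) := by exact_mod_cast hge
      linarith
    have h5 : 0 ≤ R (GG R N s y w j + 1) - R (GG R N s y w j) := by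
      have := R_mono hR (Nat.le_succ (GG R N s y w j))
      linarith
    nlinarith
  · have h1 : GG R N s y w j = N := le_antisymm hle hge'
    rw [h1]
    have h2 : uu R s w N = y ^ 2 := hu
    rw [h2]
    have : (0 : ℝ) ≤ j := Nat.cast_nonneg j
    nlinarith

include hR0 hR hN1 hw hy hsl hsl' hu in
theorem GG_zero (hj : y ≤ w ^ 2 - w) : GG R N s y w 0 = N := by
  classical
  apply le_antisymm (Nat.findGreatest_le N)
  apply Nat.le_findGreatest le_rfl
  show (y + ((0 : ℕ) : ℝ)) ^ 2 ≤ uu R s w N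
  have h2 : uu R s w N = y ^ 2 := hu
  rw [h2]
  simp

include hR0 hR hN1 hw hy hsl hsl' hu in
theorem GG_succ (j : ℕ) (hj : y + (j + 1 : ℕ) ≤ w ^ 2 - w) :
    let G := GG R N s y w j
    let G' := GG R N s y w (j + 1)
    let Y := y + (j : ℝ)
    G' ≤ G ∧ 2 * Y ≤ uu R s w G' - uu R s w G ∧ uu R s w G' - uu R s w G ≤ 2 * Y + 2 ∧
      16 * G' ≤ G ∧ Real.log ((G : ℝ) / G') ≤ 33 * Y := by
  intro G G' Y
  have hj0 : y + j ≤ w ^ 2 - w := by
    push_cast at hj
    linarith
  obtain ⟨a1, a2, a3, a4⟩ := GG_facts hR0 hR N s y w hN1 hw hy hsl hsl' hu j hj0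
  obtain ⟨b1, b2, b3, b4⟩ := GG_facts hR0 hR N s y w hN1 hw hy hsl hsl' hu (j + 1) hj
  change 1 ≤ G at a1
  change 1 ≤ G' at b1
  change Y ^ 2 ≤ uu R s w G at a3
  change uu R s w G ≤ Y ^ 2 + 1 at a4
  change (y + (j + 1 : ℕ)) ^ 2 ≤ uu R s w G' at b3
  change uu R s w G' ≤ (y + (j + 1 : ℕ)) ^ 2 + 1 at b4
  have hY : (y + (j + 1 : ℕ)) = Y + 1 := by
    simp only [Y]; push_cast; ring
  rw [hY] at b3 b4
  have hYpos : 8 ≤ Y := by
    simp only [Y]
    have : (0 : ℝ) ≤ j := Nat.cast_nonneg j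
    linarith
  have hanti := uu_anti hR s w hw hsl
  have c1 : 2 * Y ≤ uu R s w G' - uu R s w G := by nlinarith
  have c2 : uu R s w G' - uu R s w G ≤ 2 * Y + 2 := by nlinarith
  have c0 : G' ≤ G := by
    by_contra h
    push Not at h
    have := hanti h.le
    linarith
  have hdiff : uu R s w G' - uu R s w G = s * w ^ 4 * (R G - R G') := by unfold uu; ring
  have hRR : 0 ≤ R G - R G' := by
    have := R_mono hR c0
    linarith
  have gpos : (1 : ℝ) ≤ G := by exact_mod_cast a1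
  have gpos' : (1 : ℝ) ≤ G' := by exact_mod_cast b1
  refine ⟨c0, c1, c2, ?_, ?_⟩
  · have h1 := R_sub_le hR c0
    have h2 : 2 * Y ≤ 4 * (1 / 2 * (Real.log (2 * G + 1) - Real.log (2 * G' + 1))) := by
      calc 2 * Y ≤ uu R s w G' - uu R s w G := c1
        _ = s * w ^ 4 * (R G - R G') := hdiff
        _ ≤ 4 * (R G - R G') := mul_le_mul_of_nonneg_right hsl' hRR
        _ ≤ _ := by linarith
    have h3 : Y ≤ Real.log ((2 * G + 1) / (2 * G' + 1)) := by
      rw [Real.log_div (by positivity) (by positivity)]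
      linarith
    have h4 : Real.exp Y ≤ (2 * G + 1) / (2 * G' + 1) := by
      have := Real.exp_le_exp.mpr h3
      rwa [Real.exp_log (by positivity)] at this
    have h5 : (32 : ℝ) ≤ Real.exp Y := by
      have h6 := Real.pow_div_factorial_le_exp Y (by linarith) 2
      norm_num at h6
      nlinarith
    have h7 : (32 : ℝ) * (2 * G' + 1) ≤ 2 * G + 1 := by
      have := h5.trans h4
      rwa [le_div_iff₀ (by positivity)] at this
    have h8 : 32 * (2 * G' + 1) ≤ 2 * G + 1 := by exact_mod_cast h7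
    omega
  · have h1 := R_sub_ge hR c0
    have h2 : 1 / 2 * (1 / 4 * (Real.log (G + 1) - Real.log (G' + 1))) ≤ 2 * Y + 2 := by
      have h3 : 1 / 2 * (R G - R G') ≤ s * w ^ 4 * (R G - R G') :=
        mul_le_mul_of_nonneg_right hsl hRR
      rw [← hdiff] at h3
      linarith
    have h4 : Real.log ((G : ℝ) / G') ≤ Real.log (((G : ℝ) + 1) * 2 / (G' + 1)) := by
      apply Real.log_le_log (by positivity)
      rw [div_le_div_iff₀ (by positivity) (by positivity)]
      nlinarith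
    have h5 : Real.log (((G : ℝ) + 1) * 2 / (G' + 1)) =
        Real.log (G + 1) - Real.log (G' + 1) + Real.log 2 := by
      rw [Real.log_div (by positivity) (by positivity), Real.log_mul (by positivity) (by norm_num)]
      ring
    have h6 : Real.log 2 ≤ 1 := by
      have := Real.log_two_lt_d9
      linarith
    rw [h5] at h4
    linarith

include hR0 hR hN hN1 hw hy hsl hsl' hu in
/-- bounds for `delta` -/
theorem delta_facts (j : ℕ) (hj : y + j ≤ w ^ 2 - w) :
    let G := GG R N s y w j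
    let Y := y + (j : ℝ)
    let d := s / (1 - s * R G)
    0 < s ∧ s * R G < 1 ∧ d = s * w ^ 4 / uu R s w G ∧ d ≤ 4 / Y ^ 2 ∧ √d ≤ 2 / Y ∧ 1 / (2 * Y) ≤ √d := by
  intro G Y d
  obtain ⟨a1, a2, a3, a4⟩ := GG_facts hR0 hR N s y w hN1 hw hy hsl hsl' hu j hj
  change 1 ≤ G at a1
  change Y ^ 2 ≤ uu R s w G at a3
  change uu R s w G ≤ Y ^ 2 + 1 at a4
  have hYpos : 8 ≤ Y := by
    simp only [Y]
    have : (0 : ℝ) ≤ j := Nat.cast_nonneg j
    linarith
  have hw4 : 0 < w ^ 4 := by positivity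
  have hs : 0 < s := by
    by_contra h
    push Not at h
    nlinarith
  have hupos : 0 < uu R s w G := by nlinarith
  have h1 : 0 < 1 - s * R G := by
    unfold uu at hupos
    by_contra h
    push Not at h
    nlinarith
  have hd : d = s * w ^ 4 / uu R s w G := by
    simp only [d, uu]
    rw [mul_div_mul_right _ _ hw4.ne']
  have hYp : 0 < Y := by linarith
  have hd1 : d ≤ 4 / Y ^ 2 := by
    rw [hd]
    exact div_le_div₀ (by norm_num) hsl' (by positivity) a3
  have hd2 : 1 / (4 * Y ^ 2) ≤ d := by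
    rw [hd, div_le_div_iff₀ (by positivity) hupos]
    nlinarith
  refine ⟨hs, by linarith, hd, hd1, ?_, ?_⟩
  · rw [Real.sqrt_le_left (by positivity)]
    calc d ≤ 4 / Y ^ 2 := hd1
      _ = (2 / Y) ^ 2 := by field_simp; norm_num
  · apply Real.le_sqrt_of_sq_le
    calc (1 / (2 * Y)) ^ 2 = 1 / (4 * Y ^ 2) := by field_simp; norm_num
      _ ≤ d := hd2

theorem exp_big {w : ℝ} (hw : 1000 ≤ w) : 2 * w ^ 2 ≤ Real.exp (w / 4) := by
  have h := Real.pow_div_factorial_le_exp (w / 4) (by linarith) 3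
  have h1 : (w / 4) ^ 3 / (Nat.factorial 3 : ℕ) = w ^ 3 / 384 := by
    norm_num [Nat.factorial]
    ring
  rw [h1] at h
  have h2 : 2 * w ^ 2 ≤ w ^ 3 / 384 := by
    have : 0 ≤ w ^ 2 := by positivity
    nlinarith
  linarith

include hR0 hR hN hN1 hw hy hsl hsl' hu in
theorem pow_facts (j : ℕ) (hj : y + (j + 1 : ℕ) ≤ w ^ 2 - w) :
    let G := GG R N s y w j
    let d := s / (1 - s * R G)
    1 / √d ≤ (G : ℝ) ^ √d := by
  intro G d
  have hj0 : y + j ≤ w ^ 2 - w := by
    push_cast at hj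
    linarith
  obtain ⟨a1, a2, a3, a4⟩ := GG_facts hR0 hR N s y w hN1 hw hy hsl hsl' hu j hj0
  obtain ⟨e1, e2, e3, e4, e5, e6⟩ := delta_facts hR0 hR N s y w hN hN1 hw hy hsl hsl' hu j hj0
  set Y : ℝ := y + (j : ℝ) with hYdef
  change 1 ≤ G at a1
  change Y ^ 2 ≤ uu R s w G at a3
  change uu R s w G ≤ Y ^ 2 + 1 at a4
  change 1 / (2 * Y) ≤ √d at e6
  have hYpos : 8 ≤ Y := by
    have : (0 : ℝ) ≤ j := Nat.cast_nonneg j
    linarith
  have hY0 : 0 < Y := by linarith
  have hw0 : 0 < w := by linarith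
  -- lower bound for log G
  have hRG : (w ^ 4 - Y ^ 2 - 1) / 4 ≤ R G := by
    have h1 : uu R s w G = w ^ 4 - s * w ^ 4 * R G := by unfold uu; ring
    have hRG0 : 0 ≤ R G := by
      have := R_mono hR (Nat.zero_le G)
      rwa [hR0] at this
    have h2 : s * w ^ 4 * R G ≤ 4 * R G := mul_le_mul_of_nonneg_right hsl' hRG0
    linarith
  have gpos : (1 : ℝ) ≤ G := by exact_mod_cast a1
  have hlog : R G ≤ 1 / 2 * (Real.log 3 + Real.log G) := by
    have h1 := R_sub_le hR (Nat.zero_le G)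
    rw [hR0] at h1
    simp only [Nat.cast_zero, mul_zero, zero_add, Real.log_one, sub_zero] at h1
    have h2 : Real.log (2 * G + 1) ≤ Real.log (3 * G) := by
      apply Real.log_le_log (by positivity)
      linarith
    rw [Real.log_mul (by norm_num) (by positivity)] at h2
    linarith
  have hlog3 : Real.log 3 ≤ 2 := by
    have := Real.log_le_sub_one_of_pos (show (0 : ℝ) < 3 by norm_num)
    linarith
  have hYw : Y ≤ w ^ 2 - w := hj0
  have hY2 : Y ^ 2 ≤ (w ^ 2 - w) ^ 2 := pow_le_pow_left₀ hY0.le hYw 2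
  have h5 : (w ^ 2 - w) ^ 2 = w ^ 4 - 2 * w ^ 3 + w ^ 2 := by ring
  have hlogG : w ^ 3 / 2 ≤ Real.log G := by
    have h6 : (w ^ 4 - Y ^ 2 - 1) / 2 - 2 ≤ Real.log G := by linarith
    have h7 : w ^ 2 * 1000 ≤ w ^ 3 := by
      have : 0 ≤ w ^ 2 := by positivity
      nlinarith
    have h8 : 1000000 ≤ w ^ 2 := by nlinarith
    linarith
  have hYw2 : Y ≤ w ^ 2 := by linarith
  have hsq : 1 / √d ≤ 2 * Y := by
    rw [one_div]
    calc (√d)⁻¹ ≤ (1 / (2 * Y))⁻¹ := inv_anti₀ (by positivity) e6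
      _ = 2 * Y := by rw [one_div, inv_inv]
  have hpow : Real.exp (w / 4) ≤ (G : ℝ) ^ √d := by
    rw [Real.rpow_def_of_pos (by positivity)]
    apply Real.exp_le_exp.mpr
    calc w / 4 = w ^ 3 / 2 * (1 / (2 * w ^ 2)) := by field_simp; norm_num
      _ ≤ Real.log G * (1 / (2 * Y)) := by
          apply mul_le_mul hlogG _ (by positivity) (by
            have : 0 ≤ w ^ 3 / 2 := by positivity
            linarith)
          apply one_div_le_one_div_of_le (by positivity)
          linarith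
      _ ≤ Real.log G * √d := by
          apply mul_le_mul_of_nonneg_left e6
          have : 0 ≤ w ^ 3 / 2 := by positivity
          linarith
  have h9 := exp_big hw
  linarith

theorem sum_inv_sq {y : ℝ} (hy : 2 ≤ y) (J : ℕ) :
    ∑ j ∈ range J, 1 / (y + j) ^ 2 ≤ 1 / (y - 1) - 1 / (y + J - 1) := by
  induction J with
  | zero => simp
  | succ J ih =>
    rw [sum_range_succ]
    have h1 : 1 / (y + J) ^ 2 ≤ 1 / (y + J - 1) - 1 / (y + (J + 1 : ℕ) - 1) := by
      have hJ : (0 : ℝ) ≤ J := Nat.cast_nonneg J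
      have ha : 0 < y + J - 1 := by linarith
      have hb : 0 < y + J := by linarith
      have hc : y + ((J + 1 : ℕ) : ℝ) - 1 = y + J := by push_cast; ring
      rw [hc, div_sub_div _ _ ha.ne' hb.ne', div_le_div_iff₀ (by positivity) (by positivity)]
      nlinarith
    linarith

include hR0 hR hN hN1 hw hy hsl hsl' hu in
theorem core (hyw : y ≤ w ^ 2 / 2) :
    let J := ⌊w ^ 2 - w - y⌋₊
    let G := fun j : ℕ => GG R N s y w j
    G 0 = N ∧ 1 ≤ G J ∧ (∀ j < J, 16 * G (j + 1) ≤ G j) ∧ (∀ j ≤ J, s * R (G j) < 1) ∧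
      s * R (G J) ≤ 4 / w ∧
      (∀ j < J, s / (1 - s * R (G j)) ≤ 4 / y ^ 2 ∧
        √(s / (1 - s * R (G j))) * Real.log ((G j : ℝ) / G (j + 1)) ≤ 66 ∧
        1 / √(s / (1 - s * R (G j))) ≤ (G j : ℝ) ^ √(s / (1 - s * R (G j)))) ∧
      ∑ j ∈ range J, s / (1 - s * R (G j)) ≤ 4 / (y - 1) ∧
      |∑ j ∈ range J, s / (1 - s * R (G j)) * (R (G j) - R (G (j + 1))) -
        Real.log (w ^ 4 / y ^ 2)| ≤ 8 / (y - 1) + 8 / w := by
  intro J G
  have hw2 : w * 1000 ≤ w ^ 2 := by nlinarith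
  have hnn : 0 ≤ w ^ 2 - w - y := by nlinarith
  have hJ1 : (J : ℝ) ≤ w ^ 2 - w - y := Nat.floor_le hnn
  have hJ2 : w ^ 2 - w - y < J + 1 := Nat.lt_floor_add_one _
  have hj : ∀ j ≤ J, y + j ≤ w ^ 2 - w := by
    intro j hj
    have : (j : ℝ) ≤ J := by exact_mod_cast hj
    linarith
  have hjs : ∀ j < J, y + (j + 1 : ℕ) ≤ w ^ 2 - w := fun j h => hj (j + 1) h
  have hw0 : 0 < w := by linarith
  have hy0 : 0 < y := by linarith
  have hw4 : 0 < w ^ 4 := by positivity
  have hs : 0 < s := by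
    by_contra h
    push Not at h
    nlinarith
  have hG0 : G 0 = N := GG_zero hR0 hR N s y w hN1 hw hy hsl hsl' hu (by linarith)
  have hlt : ∀ j ≤ J, s * R (G j) < 1 := fun j h =>
    (delta_facts hR0 hR N s y w hN hN1 hw hy hsl hsl' hu j (hj j h)).2.1
  have hYj : ∀ j : ℕ, y ≤ y + (j : ℝ) := fun j => by
    have : (0 : ℝ) ≤ j := Nat.cast_nonneg j
    linarith
  have hR4 : s * R (G J) ≤ 4 / w := by
    obtain ⟨a1, a2, a3, a4⟩ := GG_facts hR0 hR N s y w hN1 hw hy hsl hsl' hu J (hj J le_rfl)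
    change (y + J) ^ 2 ≤ (1 - s * R (G J)) * w ^ 4 at a3
    have h1 : w ^ 2 - w - 1 ≤ y + J := by linarith
    have h0 : 0 ≤ w ^ 2 - w - 1 := by nlinarith
    have h2 : (w ^ 2 - w - 1) ^ 2 ≤ (y + J) ^ 2 := pow_le_pow_left₀ h0 h1 2
    have h3 : (w ^ 2 - w - 1) ^ 2 = w ^ 4 - 2 * w ^ 3 - w ^ 2 + 2 * w + 1 := by ring
    have h4 : s * R (G J) * w ^ 4 ≤ 2 * w ^ 3 + w ^ 2 := by nlinarith
    rw [le_div_iff₀ hw0]
    have h5 : w ^ 2 * 1000 ≤ w ^ 3 := by
      have : 0 ≤ w ^ 2 := by positivity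
      nlinarith
    have h6 : s * R (G J) * w * w ^ 3 ≤ 4 * w ^ 3 := by
      calc s * R (G J) * w * w ^ 3 = s * R (G J) * w ^ 4 := by ring
        _ ≤ 2 * w ^ 3 + w ^ 2 := h4
        _ ≤ 4 * w ^ 3 := by linarith
    exact le_of_mul_le_mul_right h6 (by positivity)
  refine ⟨hG0, (GG_facts hR0 hR N s y w hN1 hw hy hsl hsl' hu J (hj J le_rfl)).1,
    fun j h => (GG_succ hR0 hR N s y w hN1 hw hy hsl hsl' hu j (hjs j h)).2.2.2.1, hlt, hR4,
    ?_, ?_, ?_⟩
  · intro j h
    obtain ⟨e1, e2, e3, e4, e5, e6⟩ :=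
      delta_facts hR0 hR N s y w hN hN1 hw hy hsl hsl' hu j (hj j h.le)
    obtain ⟨f1, f2, f3, f4, f5⟩ := GG_succ hR0 hR N s y w hN1 hw hy hsl hsl' hu j (hjs j h)
    refine ⟨?_, ?_, pow_facts hR0 hR N s y w hN hN1 hw hy hsl hsl' hu j (hjs j h)⟩
    · refine e4.trans ?_
      apply div_le_div_of_nonneg_left (by norm_num) (by positivity)
      exact pow_le_pow_left₀ hy0.le (hYj j) 2
    · have hYp : 0 < y + (j : ℝ) := by
        have := hYj j
        linarith
      calc √(s / (1 - s * R (G j))) * Real.log ((G j : ℝ) / G (j + 1))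
          ≤ √(s / (1 - s * R (G j))) * (33 * (y + j)) :=
            mul_le_mul_of_nonneg_left f5 (Real.sqrt_nonneg _)
        _ ≤ 2 / (y + j) * (33 * (y + j)) := mul_le_mul_of_nonneg_right e5 (by positivity)
        _ = 66 := by field_simp; norm_num
  · have h1 : ∀ j ∈ range J, s / (1 - s * R (G j)) ≤ 4 * (1 / (y + j) ^ 2) := by
      intro j h
      have := (delta_facts hR0 hR N s y w hN hN1 hw hy hsl hsl' hu j
        (hj j (mem_range.mp h).le)).2.2.2.1
      rw [mul_one_div]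
      exact this
    have h2 := sum_inv_sq (y := y) (by linarith) J
    have h3 : 0 ≤ 1 / (y + J - 1) := by
      have := hYj J
      apply one_div_nonneg.mpr
      linarith
    calc ∑ j ∈ range J, s / (1 - s * R (G j)) ≤ ∑ j ∈ range J, 4 * (1 / (y + j) ^ 2) :=
          sum_le_sum h1
      _ = 4 * ∑ j ∈ range J, 1 / (y + j) ^ 2 := by rw [mul_sum]
      _ ≤ 4 * (1 / (y - 1)) := by linarith
      _ = 4 / (y - 1) := by rw [mul_one_div]
  · set u : ℕ → ℝ := fun j => uu R s w (G j) with hudef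
    have hupos : ∀ j ≤ J, 0 < u j := by
      intro j h
      obtain ⟨a1, a2, a3, a4⟩ := GG_facts hR0 hR N s y w hN1 hw hy hsl hsl' hu j (hj j h)
      have : 0 < (y + (j : ℝ)) ^ 2 := by
        have := hYj j
        positivity
      exact lt_of_lt_of_le this a3
    have ha : ∀ j < J, s / (1 - s * R (G j)) * (R (G j) - R (G (j + 1))) = u (j + 1) / u j - 1 := by
      intro j h
      have h1 := hupos j h.le
      have h2 : 0 < 1 - s * R (G j) := by
        have := hlt j h.le
        linarith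
      simp only [hudef, uu]
      rw [mul_div_mul_right _ _ hw4.ne']
      field_simp
      ring
    have hlogs : ∑ j ∈ range J, Real.log (u (j + 1) / u j) = Real.log (u J) - Real.log (y ^ 2) := by
      have h1 : ∀ j ∈ range J, Real.log (u (j + 1) / u j) = Real.log (u (j + 1)) - Real.log (u j) := by
        intro j h
        have h2 := mem_range.mp h
        rw [Real.log_div (hupos (j + 1) h2).ne' (hupos j h2.le).ne']
      rw [sum_congr rfl h1, sum_range_sub (fun j => Real.log (u j))]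
      congr 1
      simp only [hudef, hG0]
      rw [show uu R s w N = y ^ 2 from hu]
    have hu01 : u J / w ^ 4 = 1 - s * R (G J) := by
      simp only [hudef, uu]
      field_simp
    have hb1 : ∀ j ∈ range J, |(u (j + 1) / u j - 1) - Real.log (u (j + 1) / u j)| ≤
        8 * (1 / (y + j) ^ 2) := by
      intro j h
      have h2 := mem_range.mp h
      obtain ⟨f1, f2, f3, f4, f5⟩ := GG_succ hR0 hR N s y w hN1 hw hy hsl hsl' hu j (hjs j h2)
      obtain ⟨a1, a2, a3, a4⟩ := GG_facts hR0 hR N s y w hN1 hw hy hsl hsl' hu j (hj j h2.le)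
      change 2 * (y + (j : ℝ)) ≤ u (j + 1) - u j at f2
      change u (j + 1) - u j ≤ 2 * (y + (j : ℝ)) + 2 at f3
      change (y + (j : ℝ)) ^ 2 ≤ u j at a3
      have hYp : 8 ≤ y + (j : ℝ) := by
        have := hYj j
        linarith
      have hup := hupos j h2.le
      set a := u (j + 1) / u j - 1 with hadef
      have ha0 : 0 ≤ a := by
        rw [hadef, sub_nonneg, le_div_iff₀ hup]
        linarith
      have ha1 : a ≤ 4 / (y + j) := by
        have h3 : a = (u (j + 1) - u j) / u j := by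
          rw [hadef]
          field_simp
        rw [h3, div_le_div_iff₀ hup (by linarith)]
        nlinarith
      have h4 : u (j + 1) / u j = 1 + a := by rw [hadef]; ring
      rw [h4]
      have h5 : Real.log (1 + a) ≤ a := by
        have := Real.log_le_sub_one_of_pos (show 0 < 1 + a by linarith)
        linarith
      have h6 : a - a ^ 2 / 2 ≤ Real.log (1 + a) := by
        have h7 := Real.le_log_one_add_of_nonneg ha0
        have h8 : a - a ^ 2 / 2 ≤ 2 * a / (a + 2) := by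
          rw [le_div_iff₀ (by linarith)]
          nlinarith [pow_nonneg ha0 3]
        linarith
      rw [abs_of_nonneg (by linarith)]
      have h9 : a ^ 2 ≤ (4 / (y + j)) ^ 2 := pow_le_pow_left₀ ha0 ha1 2
      have h10 : (4 / (y + (j : ℝ))) ^ 2 = 16 * (1 / (y + j) ^ 2) := by
        field_simp
        norm_num
      linarith
    have hsum : |∑ j ∈ range J, s / (1 - s * R (G j)) * (R (G j) - R (G (j + 1))) -
        (Real.log (u J) - Real.log (y ^ 2))| ≤ 8 / (y - 1) := by
      rw [← hlogs, ← sum_sub_distrib]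
      have h2 := sum_inv_sq (y := y) (by linarith) J
      have h3 : 0 ≤ 1 / (y + J - 1) := by
        have := hYj J
        apply one_div_nonneg.mpr
        linarith
      calc |∑ j ∈ range J, (s / (1 - s * R (G j)) * (R (G j) - R (G (j + 1))) -
            Real.log (u (j + 1) / u j))|
          ≤ ∑ j ∈ range J, |s / (1 - s * R (G j)) * (R (G j) - R (G (j + 1))) -
            Real.log (u (j + 1) / u j)| := abs_sum_le_sum_abs _ _
        _ ≤ ∑ j ∈ range J, 8 * (1 / (y + j) ^ 2) := by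
            apply sum_le_sum
            intro j h
            rw [ha j (mem_range.mp h)]
            exact hb1 j h
        _ = 8 * ∑ j ∈ range J, 1 / (y + j) ^ 2 := by rw [mul_sum]
        _ ≤ 8 * (1 / (y - 1)) := by linarith
        _ = 8 / (y - 1) := by rw [mul_one_div]
    have hlast : |(Real.log (u J) - Real.log (y ^ 2)) - Real.log (w ^ 4 / y ^ 2)| ≤ 8 / w := by
      have h1 : (Real.log (u J) - Real.log (y ^ 2)) - Real.log (w ^ 4 / y ^ 2) =
          Real.log (1 - s * R (G J)) := by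
        rw [← hu01, Real.log_div (by positivity) (by positivity),
          Real.log_div (hupos J le_rfl).ne' (by positivity)]
        ring
      rw [h1]
      have hRJ : 0 ≤ R (G J) := by
        have := R_mono hR (Nat.zero_le (G J))
        rwa [hR0] at this
      have hx0 : 0 ≤ s * R (G J) := mul_nonneg hs.le hRJ
      have hw4' : 4 / w ≤ 1 / 2 := by
        rw [div_le_div_iff₀ hw0 (by norm_num)]
        linarith
      have hxpos : 0 < 1 - s * R (G J) := by linarith
      have h2 : Real.log (1 - s * R (G J)) ≤ 0 := Real.log_nonpos hxpos.le (by linarith)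
      have h3 := Real.one_sub_inv_le_log_of_pos hxpos
      rw [abs_of_nonpos h2]
      have h4 : (1 - s * R (G J))⁻¹ ≤ 1 + 2 * (s * R (G J)) := by
        rw [inv_le_comm₀ hxpos (by linarith), inv_eq_one_div, div_le_iff₀ (by linarith)]
        nlinarith
      have h5 : 8 / w = 2 * (4 / w) := by ring
      rw [h5]
      linarith
    calc |∑ j ∈ range J, s / (1 - s * R (G j)) * (R (G j) - R (G (j + 1))) -
          Real.log (w ^ 4 / y ^ 2)|
        = |(∑ j ∈ range J, s / (1 - s * R (G j)) * (R (G j) - R (G (j + 1))) -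
          (Real.log (u J) - Real.log (y ^ 2))) +
          ((Real.log (u J) - Real.log (y ^ 2)) - Real.log (w ^ 4 / y ^ 2))| := by
            congr 1; ring
      _ ≤ _ := abs_add_le _ _
      _ ≤ _ := add_le_add hsum hlast

end core

theorem blocks (R : ℕ → ℝ) (hR0 : R 0 = 0)
    (hR : ∀ n : ℕ, 1 / (4 * ((n : ℝ) + 1)) ≤ R (n + 1) - R n ∧ R (n + 1) - R n ≤ 1 / (2 * ((n : ℝ) + 1) + 1))
    (s ϑ : ℕ → ℝ) (hs : ∀ᶠ N : ℕ in atTop, s N = 1 / R N * (1 - ϑ N / Real.log N))
    (hϑ : Tendsto ϑ atTop atTop) (hϑ' : Tendsto (fun N : ℕ => ϑ N / Real.log N) atTop (𝓝 0)) :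
    ∃ (I : ℕ → ℕ) (M : ℕ → ℕ → ℕ) (C : ℝ), 0 < C ∧ ∀ η : ℝ, 0 < η → ∀ᶠ N : ℕ in atTop,
      0 < s N ∧ s N ≤ η ∧ M N (I N) = N ∧ 1 ≤ M N 0 ∧ (∀ i < I N, 16 * M N i ≤ M N (i + 1)) ∧
      (∀ i ≤ I N, s N * R (M N i) < 1) ∧ s N * R (M N 0) ≤ η ∧
      (∀ i < I N, s N / (1 - s N * R (M N (i + 1))) ≤ η ∧
        √(s N / (1 - s N * R (M N (i + 1)))) * Real.log (M N (i + 1) / M N i) ≤ C ∧
        1 / √(s N / (1 - s N * R (M N (i + 1)))) ≤
          (M N (i + 1) : ℝ) ^ √(s N / (1 - s N * R (M N (i + 1))))) ∧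
      ∑ i ∈ range (I N), s N / (1 - s N * R (M N (i + 1))) ≤ η ∧
      |∑ i ∈ range (I N), s N / (1 - s N * R (M N (i + 1))) * (R (M N (i + 1)) - R (M N i)) -
        Real.log (Real.log N / ϑ N)| ≤ η := by
  set w : ℕ → ℝ := fun N => (Real.log N) ^ (1 / 4 : ℝ) with hwdef
  set y : ℕ → ℝ := fun N => √(ϑ N) with hydef
  set J : ℕ → ℕ := fun N => ⌊w N ^ 2 - w N - y N⌋₊ with hJdef
  refine ⟨J, fun N i => GG R N (s N) (y N) (w N) (J N - i), 66, by norm_num, fun η hη => ?_⟩
  have hlog : Tendsto (fun N : ℕ => Real.log N) atTop atTop :=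
    Real.tendsto_log_atTop.comp tendsto_natCast_atTop_atTop
  have hwt : Tendsto w atTop atTop :=
    (tendsto_rpow_atTop (by norm_num : (0 : ℝ) < 1 / 4)).comp hlog
  have hyt : Tendsto y atTop atTop := Real.tendsto_sqrt_atTop.comp hϑ
  filter_upwards [hs, hwt.eventually_ge_atTop 1000, hwt.eventually_ge_atTop (100 / η),
    hyt.eventually_ge_atTop 8, hyt.eventually_ge_atTop (1 + 100 / η), hϑ.eventually_ge_atTop 1,
    hϑ'.eventually_lt_const (show (0 : ℝ) < 1 / 4 by norm_num), eventually_ge_atTop 3,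
    hlog.eventually_ge_atTop 1] with N h1 h2 h3 h4 h5 h6 h7 h8 h9
  have hℓ : 0 < Real.log N := by linarith
  have hw4 : Real.log N = w N ^ 4 := by
    simp only [hwdef]
    rw [← Real.rpow_natCast, ← Real.rpow_mul hℓ.le]
    norm_num
  have hy2 : y N ^ 2 = ϑ N := Real.sq_sqrt (by linarith)
  have hN1 : 1 ≤ N := by omega
  have hNr : (3 : ℝ) ≤ N := by exact_mod_cast h8
  -- bounds for R N
  have hRN1 : R N ≤ Real.log N := by
    have e1 := R_sub_le hR (Nat.zero_le N)
    rw [hR0] at e1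
    simp only [Nat.cast_zero, mul_zero, zero_add, Real.log_one, sub_zero] at e1
    have e2 : Real.log (2 * N + 1) ≤ Real.log ((N : ℝ) ^ 2) := by
      apply Real.log_le_log (by positivity)
      nlinarith
    rw [Real.log_pow] at e2
    push_cast at e2
    linarith
  have hRN2 : Real.log N / 4 ≤ R N := by
    have e1 := R_sub_ge hR (Nat.zero_le N)
    rw [hR0] at e1
    simp only [Nat.cast_zero, zero_add, Real.log_one, sub_zero] at e1
    have e2 : Real.log N ≤ Real.log (N + 1) := by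
      apply Real.log_le_log (by linarith)
      linarith
    linarith
  have hRpos : 0 < R N := by linarith
  have hfac : 0 ≤ ϑ N / Real.log N := div_nonneg (by linarith) hℓ.le
  have hsw : s N * w N ^ 4 = Real.log N / R N * (1 - ϑ N / Real.log N) := by
    rw [h1, ← hw4]
    ring
  have hq1 : 1 ≤ Real.log N / R N := by rwa [le_div_iff₀ hRpos, one_mul]
  have hq2 : Real.log N / R N ≤ 4 := by
    rw [div_le_iff₀ hRpos]
    linarith
  have hsl : 1 / 2 ≤ s N * w N ^ 4 := by
    rw [hsw]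
    nlinarith
  have hsl' : s N * w N ^ 4 ≤ 4 := by
    rw [hsw]
    nlinarith
  have hu : (1 - s N * R N) * w N ^ 4 = y N ^ 2 := by
    rw [hy2, ← hw4, h1]
    field_simp
    ring
  have hyw : y N ≤ w N ^ 2 / 2 := by
    apply Real.sqrt_le_iff.mpr
    refine ⟨by positivity, ?_⟩
    rw [div_lt_iff₀ hℓ, hw4] at h7
    nlinarith
  obtain ⟨c1, c2, c3, c4, c5, c6, c7, c8⟩ :=
    core hR0 hR N (s N) (y N) (w N) hw4 hN1 h2 h4 hsl hsl' hu hyw
  have hw0 : 0 < w N := by linarith
  have hspos : 0 < s N := by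
    by_contra h
    push Not at h
    have : 0 < w N ^ 4 := by positivity
    nlinarith
  have hwη : 100 ≤ η * w N := by
    rw [div_le_iff₀ hη] at h3
    linarith
  have hyη : 100 ≤ η * (y N - 1) := by
    have : 100 / η ≤ y N - 1 := by linarith
    rw [div_le_iff₀ hη] at this
    linarith
  have hy1 : 0 < y N - 1 := by linarith
  have idx : ∀ i < J N, J N - i = (J N - (i + 1)) + 1 ∧ J N - (i + 1) < J N := by
    intro i hi
    omega
  refine ⟨hspos, ?_, ?_, ?_, ?_, ?_, ?_, ?_, ?_, ?_⟩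
  · have e1 : w N ≤ w N ^ 4 := by
      calc w N = w N ^ 1 := (pow_one _).symm
        _ ≤ w N ^ 4 := pow_le_pow_right₀ (by linarith) (by norm_num)
    have e2 : 100 ≤ η * w N ^ 4 := by nlinarith
    have e3 : s N * w N ^ 4 ≤ η * w N ^ 4 := by linarith
    exact le_of_mul_le_mul_right e3 (by positivity)
  · show GG R N (s N) (y N) (w N) (J N - J N) = N
    rw [Nat.sub_self]
    exact c1
  · show 1 ≤ GG R N (s N) (y N) (w N) (J N - 0)
    exact c2
  · intro i hi
    obtain ⟨k1, k2⟩ := idx i hi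
    have := c3 (J N - (i + 1)) k2
    show 16 * GG R N (s N) (y N) (w N) (J N - i) ≤ GG R N (s N) (y N) (w N) (J N - (i + 1))
    rw [k1]
    exact this
  · intro i hi
    exact c4 (J N - i) (Nat.sub_le _ _)
  · show s N * R (GG R N (s N) (y N) (w N) (J N - 0)) ≤ η
    refine le_trans c5 ?_
    rw [div_le_iff₀ hw0]
    linarith
  · intro i hi
    obtain ⟨k1, k2⟩ := idx i hi
    obtain ⟨g1, g2, g3⟩ := c6 (J N - (i + 1)) k2
    refine ⟨g1.trans ?_, ?_, g3⟩
    · rw [div_le_iff₀ (by positivity)]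
      nlinarith
    · show √(s N / (1 - s N * R (GG R N (s N) (y N) (w N) (J N - (i + 1))))) *
        Real.log ((GG R N (s N) (y N) (w N) (J N - (i + 1)) : ℝ) /
          (GG R N (s N) (y N) (w N) (J N - i) : ℝ)) ≤ 66
      rw [k1]
      exact g2
  · have e1 : ∑ i ∈ range (J N), s N / (1 - s N * R (GG R N (s N) (y N) (w N) (J N - (i + 1)))) =
        ∑ j ∈ range (J N), s N / (1 - s N * R (GG R N (s N) (y N) (w N) j)) := by
      rw [← sum_range_reflect (fun j => s N / (1 - s N * R (GG R N (s N) (y N) (w N) j)))]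
      apply sum_congr rfl
      intro i hi
      have hi' := mem_range.mp hi
      rw [show J N - 1 - i = J N - (i + 1) by omega]
    show ∑ i ∈ range (J N), s N / (1 - s N * R (GG R N (s N) (y N) (w N) (J N - (i + 1)))) ≤ η
    rw [e1]
    refine le_trans c7 ?_
    rw [div_le_iff₀ hy1]
    linarith
  · have e1 : ∑ i ∈ range (J N), s N / (1 - s N * R (GG R N (s N) (y N) (w N) (J N - (i + 1)))) *
          (R (GG R N (s N) (y N) (w N) (J N - (i + 1))) - R (GG R N (s N) (y N) (w N) (J N - i))) =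
        ∑ j ∈ range (J N), s N / (1 - s N * R (GG R N (s N) (y N) (w N) j)) *
          (R (GG R N (s N) (y N) (w N) j) - R (GG R N (s N) (y N) (w N) (j + 1))) := by
      rw [← sum_range_reflect (fun j => s N / (1 - s N * R (GG R N (s N) (y N) (w N) j)) *
          (R (GG R N (s N) (y N) (w N) j) - R (GG R N (s N) (y N) (w N) (j + 1))))]
      apply sum_congr rfl
      intro i hi
      have hi' := mem_range.mp hi
      rw [show J N - 1 - i = J N - (i + 1) by omega, show J N - i = J N - (i + 1) + 1 by omega]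
    show |∑ i ∈ range (J N), s N / (1 - s N * R (GG R N (s N) (y N) (w N) (J N - (i + 1)))) *
          (R (GG R N (s N) (y N) (w N) (J N - (i + 1))) - R (GG R N (s N) (y N) (w N) (J N - i))) -
        Real.log (Real.log N / ϑ N)| ≤ η
    rw [e1]
    rw [← hy2]
    have e2 : Real.log (Real.log N / y N ^ 2) = Real.log (w N ^ 4 / y N ^ 2) := by rw [← hw4]
    rw [e2]
    refine le_trans c8 ?_
    have e3 : 8 / (y N - 1) ≤ η / 2 := by
      rw [div_le_iff₀ hy1]
      linarith
    have e4 : 8 / w N ≤ η / 2 := by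
      rw [div_le_iff₀ hw0]
      linarith
    linarith

end Pool.Agent.Helper72.QC
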